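import Pool.Agent.Y262.QE.Stm

/-!
# Project QE (helper262): conformal change of the metric
-/

set_option autoImplicit false

open Set Filter Topology MeasureTheory
open scoped Real ContDiff ComplexConjugate

noncomputable section

namespace Pool.Agent.Y492.QE

open Pool.Agent.Y262.QE

theorem det_smul2 (c : ℝ) (A : ℂ →L[ℝ] ℂ) : (c • A).det = c ^ 2 * A.det := by
  show LinearMap.det ((c • A : ℂ →L[ℝ] ℂ) : ℂ →ₗ[ℝ] ℂ) = c ^ 2 * LinearMap.det (A : ℂ →ₗ[ℝ] ℂ)
  rw [ContinuousLinearMap.toLinearMap_smul, LinearMap.det_smul, Complex.finrank_real_complex]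

theorem inv_smul' (c : ℝ) (hc : c ≠ 0) (A : ℂ →L[ℝ] ℂ) :
    (c • A).inverse = c⁻¹ • A.inverse := by
  by_cases h : A.IsInvertible
  · apply ContinuousLinearMap.inverse_eq
    · ext1 x
      simp [h.self_apply_inverse, smul_smul, hc]
    · ext1 x
      simp [h.inverse_apply_self, smul_smul, hc]
  · have h0 : c⁻¹ • (0 : ℂ →L[ℝ] ℂ) = 0 := by ext1 x; simp
    rw [ContinuousLinearMap.inverse_of_not_isInvertible h, h0]
    apply ContinuousLinearMap.inverse_of_not_isInvertible
    intro h'
    apply h
    apply ContinuousLinearMap.IsInvertible.of_inverse (g := c • (c • A).inverse)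
    · ext1 x
      have := h'.self_apply_inverse x
      simpa using this
    · ext1 x
      have h2 := h'.inverse_apply_self x
      have h3 : (c • A).inverse (c • A x) = c • (c • A).inverse (A x) := map_smul _ _ _
      show c • (c • A).inverse (A x) = x
      rw [← h3]
      exact h2

theorem conf (hInt : StInt) : StConf := by
  intro M _ _ _ _ μ D hD w hw hpos
  have hmeasw : Measurable fun x => ENNReal.ofReal (w x) := hw.measurable.ennreal_ofReal
  refine ⟨?_, ?_⟩
  · refine ⟨hD.openU, hD.cover, hD.left, hD.contφ, hD.openT, hD.contψ, ?_, ?_, ?_, ?_⟩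
    · intro (i : Fin D.N) z hz
      show (Real.sqrt (w (D.ψ i z)) • D.A i z).det ≠ 0
      rw [det_smul2, Real.sq_sqrt (hpos _).le]
      exact mul_ne_zero (hpos _).ne' (hD.det i z hz)
    · intro (i : Fin D.N)
      show ContinuousOn (fun z => Real.sqrt (w (D.ψ i z)) • D.A i z) (D.T i)
      have h1 : ContinuousOn (fun z => Real.sqrt (w (D.ψ i z))) (D.T i) :=
        Real.continuous_sqrt.comp_continuousOn (hw.comp_continuousOn (hD.contψ i))
      exact ContinuousOn.smul h1 (hD.contA i)
    · intro (i : Fin D.N) (j : Fin D.N) x (hi : x ∈ D.U i) (hj : x ∈ D.U j)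
      refine ⟨(hD.tr i j x hi hj).1, fun v => ?_⟩
      show ‖(Real.sqrt (w (D.ψ j (D.φ j x))) • D.A j (D.φ j x))
          (fderiv ℝ (fun z => D.φ j (D.ψ i z)) (D.φ i x) v)‖ =
        ‖(Real.sqrt (w (D.ψ i (D.φ i x))) • D.A i (D.φ i x)) v‖
      rw [hD.left j x hj, hD.left i x hi]
      show ‖Real.sqrt (w x) • (D.A j (D.φ j x))
          (fderiv ℝ (fun z => D.φ j (D.ψ i z)) (D.φ i x) v)‖ =
        ‖Real.sqrt (w x) • (D.A i (D.φ i x)) v‖
      rw [norm_smul, norm_smul, (hD.tr i j x hi hj).2 v]
    · intro (i : Fin D.N) B (hB : B ⊆ D.U i) hBm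
      show wm μ w B = ∫⁻ z in D.φ i '' B, ENNReal.ofReal |(Real.sqrt (w (D.ψ i z)) • D.A i z).det|
      have hBT : D.φ i '' B ⊆ D.T i := image_mono hB
      have h1 := (hInt M μ D hD i).1 (B.indicator fun x => ENNReal.ofReal (w x))
        (hmeasw.indicator hBm)
      have h2 : ∫⁻ x in D.U i, B.indicator (fun x => ENNReal.ofReal (w x)) x ∂μ =
          wm μ w B := by
        rw [lintegral_indicator hBm, Measure.restrict_restrict hBm, inter_eq_left.mpr hB, wm,
          withDensity_apply _ hBm]
      rw [← h2, h1]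
      have himg : ∀ z ∈ D.T i, (D.ψ i z ∈ B ↔ z ∈ D.φ i '' B) := by
        rintro z ⟨x, hx, rfl⟩
        rw [hD.left i x hx]
        constructor
        · intro h; exact ⟨x, h, rfl⟩
        · rintro ⟨y, hy, hxy⟩
          have : D.ψ i (D.φ i y) = D.ψ i (D.φ i x) := by rw [hxy]
          rw [hD.left i y (hB hy), hD.left i x hx] at this
          exact this ▸ hy
      have hTm : MeasurableSet (D.T i) := (hD.openT i).measurableSet
      have himgm : MeasurableSet (D.φ i '' B) := by
        have e : D.φ i '' B = D.T i ∩ D.ψ i ⁻¹' B := by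
          ext z
          constructor
          · intro hz; exact ⟨hBT hz, (himg z (hBT hz)).mpr hz⟩
          · rintro ⟨hz, hz'⟩; exact (himg z hz).mp hz'
        rw [e]
        have hmm : Measurable (fun z : D.T i => D.ψ i z) :=
          (continuousOn_iff_continuous_domRestrict.mp (hD.contψ i)).measurable
        have h3 : MeasurableSet ((fun z : D.T i => D.ψ i z) ⁻¹' B) := hmm hBm
        have h4 := hTm.subtype_image h3
        convert h4 using 1
        ext z
        simp [and_comm]
      have e1 : ∫⁻ z in D.T i, B.indicator (fun x => ENNReal.ofReal (w x)) (D.ψ i z) *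
          ENNReal.ofReal |(D.A i z).det| =
          ∫⁻ z in D.T i, (D.φ i '' B).indicator (fun z => ENNReal.ofReal
            |(Real.sqrt (w (D.ψ i z)) • D.A i z).det|) z := by
        apply setLIntegral_congr_fun hTm
        intro z hz
        by_cases hzB : z ∈ D.φ i '' B
        · have : D.ψ i z ∈ B := (himg z hz).mpr hzB
          simp only [indicator_of_mem this, indicator_of_mem hzB]
          rw [det_smul2, Real.sq_sqrt (hpos _).le, abs_mul, abs_of_pos (hpos _),
            ENNReal.ofReal_mul (hpos _).le]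
        · have : D.ψ i z ∉ B := fun h => hzB ((himg z hz).mp h)
          simp only [indicator_of_notMem this, indicator_of_notMem hzB, zero_mul]
      rw [e1, lintegral_indicator himgm, Measure.restrict_restrict himgm, inter_eq_left.mpr hBT]
  · intro F x
    have hpc : ∀ i, (D.conf w).pc i = D.pc i := fun i => rfl
    show ∑ i, ((D.conf w).pc i).indicator ((D.conf w).gc i F) x =
      (Real.sqrt (w x))⁻¹ • ∑ i, (D.pc i).indicator (D.gc i F) x
    rw [Finset.smul_sum]
    apply Finset.sum_congr rfl
    intro (i : Fin D.N) _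
    by_cases hx : x ∈ D.pc i
    · have hx' : x ∈ (D.conf w).pc i := hx
      rw [indicator_of_mem hx', indicator_of_mem hx]
      show grd (Real.sqrt (w (D.ψ i (D.φ i x))) • D.A i (D.φ i x)) (D.dc i F x) =
        (Real.sqrt (w x))⁻¹ • grd (D.A i (D.φ i x)) (D.dc i F x)
      have hs : Real.sqrt (w x) ≠ 0 := (Real.sqrt_pos.mpr (hpos x)).ne'
      have hU : x ∈ D.U i := hx.1
      have hl : ∀ v : ℂ, (D.dc i F x) ((Real.sqrt (w x))⁻¹ • v) =
          (Real.sqrt (w x))⁻¹ * (D.dc i F x) v := fun v => by rw [map_smul, smul_eq_mul]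
      rw [hD.left i x hU, grd, grd, inv_smul' _ hs]
      apply Complex.ext
      · show (D.dc i F x) ((Real.sqrt (w x))⁻¹ • (D.A i (D.φ i x)).inverse 1) = _
        rw [hl]; simp
      · show (D.dc i F x) ((Real.sqrt (w x))⁻¹ • (D.A i (D.φ i x)).inverse Complex.I) = _
        rw [hl]; simp
    · have hx' : x ∉ (D.conf w).pc i := hx
      rw [indicator_of_notMem hx', indicator_of_notMem hx, smul_zero]

end Pool.Agent.Y492.QE
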